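import Pool.Agent.Lib.SmN.Ch.Main
import Pool.Agent.Lib.SmN.Cnt.Stmts
import Pool.Agent.Lib.SmN.G6.LFactsOk
import Pool.Agent.Lib.SmN.I.FrC
import Pool.Agent.Lib.SmN.L.Sum

/-!
# SMITH-U (SmN), assembly: the conclusion of the counting half from the arithmetic of `S`

`AOk S T deg q Geo fr a C`: what the arithmetic half delivers (no counting data). `main_of`: for all
base characters `chi0` unramified outside `T` the counting data `cd chi0` satisfy `LThm`.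
-/

set_option autoImplicit false

open Finset

namespace Pool.Agent.SmN

variable {G V V1 Pl : Type} [Group G] [AddCommGroup V] [DistribMulAction G V]
  [AddCommGroup V1] [Module (ZMod 2) V1]

open Ch

/-- **Chebotarev** for the places outside `T` (`CData.Cheb` for `pl P = P`). -/
def ChebT (S : Sys G V V1 Pl) (T : Set Pl) (deg : Pl → ℕ) (Geo : Subgroup G) (fr : G)
    (q a C : ℕ) : Prop :=
  ∀ N : Subgroup G, N.Normal → (∃ N0 ∈ S.NN, N0 ≤ N) →
    ∀ f : G → ℝ, (∀ s, ∀ n ∈ N, f (s * n) = f s) → (∀ s t, f (t * s * t⁻¹) = f s) →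
    (∀ s, |f s| ≤ 1) →
    ∀ U : Finset G, (∀ t ∈ U, t ∈ Geo) → (∀ g ∈ Geo, ∃! t, t ∈ U ∧ t⁻¹ * g ∈ N) →
    ∀ d r : ℕ, 1 ≤ d → ∀ B : Finset (XX T deg).Pr, (∀ P, S.sg P.1 ∉ N → P ∈ B) →
    (XX T deg).degS B ≤ r → ∀ E : Finset (XX T deg).Pr, (∀ P, P ∈ E ↔ (XX T deg).deg P = d ∧ P ∉ B) →
    |∑ P ∈ E, f (S.phi P.1) - (E.card : ℝ) * ((∑ t ∈ U, f (fr ^ d * t)) / U.card)| ≤
      C * ((N.index : ℝ) * (r + 1)) ^ a * √((q : ℝ) ^ d)

/-- Everything which the arithmetic half delivers. -/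
structure AOk (S : Sys G V V1 Pl) (T : Set Pl) (deg : Pl → ℕ) (q : ℕ) (Geo : Subgroup G) (fr : G)
    (a C m0 : ℕ) : Prop where
  ok : S.Ok
  fi : ∀ N ∈ S.NN, N.FiniteIndex
  up : ∀ N ∈ S.NN, ∀ N' : Subgroup G, N'.Normal → N ≤ N' → N' ∈ S.NN
  lagV : LagV S T
  lagF : LagF S T
  nofix : ∀ w : V1, (∀ s, S.ac s w = w) → w = 0
  span : ∀ (A : V1 →ₗ[ZMod 2] V1) (ε : ZMod 2), ∃ U : Finset G,
    (∀ w, ∑ g ∈ U, S.ac g w = A w) ∧ (U.card : ZMod 2) = ε
  xok : (XX T deg).Ok q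
  geo : CData.GeoOk (S := S) Geo fr
  cheb : ChebT S T deg Geo fr q a C
  m0_pos : 1 ≤ m0
  m0_mem : fr ^ m0 ∈ S.GN

namespace CData

variable {S : Sys G V V1 Pl} {T : Set Pl} {deg : Pl → ℕ} {Geo : Subgroup G} {fr : G} {q a C : ℕ}

theorem cheb_of {cd : CData S (XX T deg)} (hpl : cd.pl = Subtype.val)
    (h : ChebT S T deg Geo fr q a C) : cd.Cheb Geo fr q a C := by
  intro N hN hN0 f h1 h2 h3 U h4 h5 d r hd B hB hr E hE
  have e : ∀ P, cd.pl P = P.1 := fun P => congrFun hpl P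
  have h6 := h N hN hN0 f h1 h2 h3 U h4 h5 d r hd B (fun P hP => hB P (by rw [e]; exact hP)) hr E hE
  rw [sum_congr rfl fun P _ => by rw [e P]]
  exact h6

end CData

/-- **Assembly**: the conclusion of the counting half, for one counting datum and all base
characters unramified outside `T`; `hJ`, `hG` are the blocks J and I. -/
theorem main_of {S : Sys G V V1 Pl} {T : Set Pl} {deg : Pl → ℕ} {Geo : Subgroup G} {fr : G}
    {q a C m0 : ℕ} [Nontrivial V1] (h : AOk S T deg q Geo fr a C m0)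
    (hJ : ∀ cd : CData S (XX T deg), cd.Ok → cd.Cheb Geo fr q a C →
      ∀ c0 : ℝ, 0 < c0 → ∀ r0, cd.JThm m0 c0 r0)
    (hG : ∀ cd : CData S (XX T deg), cd.Ok → cd.Cheb Geo fr q a C →
      ∀ m, 1 ≤ m → cd.GridThmN q m) :
    ∃ cd : CData S (XX T deg), cd.pl = Subtype.val ∧ ∀ chi0, XT S T chi0 →
      ({ cd with chi0 := chi0 } : CData S (XX T deg)).Ok ∧
      ({ cd with chi0 := chi0 } : CData S (XX T deg)).LThm := by
  have := h.ok.fin1
  obtain ⟨cd, h1, h2⟩ := exists_cdata' h.ok h.fi h.up h.lagV h.lagF h.nofix h.span deg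
  refine ⟨cd, h1, fun chi0 hc => ⟨h2 chi0 hc, ?_⟩⟩
  have hc := h2 chi0 hc
  have hC : ({ cd with chi0 := chi0 } : CData S (XX T deg)).Cheb Geo fr q a C :=
    CData.cheb_of h1 h.cheb
  exact CData.lThm _ h.xok h.ok hc (fun J _ _ p hp => CData.lfactsN h.ok hc hp)
    (FrN.frameThm h.ok hc) (hG _ hc hC) m0 h.m0_pos (hJ _ hc hC)

end Pool.Agent.SmN
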